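import Mathlib

/-!
# Chase-escape with conversion against the epidemic without predation: algebra

`A N c l n s` is the probability that the jump chain which removes `x` at rate `c s x` and spreads
along every (red, white) edge at rate `l` has no red vertex after at most `n` jumps from `s`.
-/

set_option autoImplicit false

open Finset

namespace Pool.Agent.R113.CE

noncomputable section

variable {V : Type*} [DecidableEq V]

/-- the white neighbours of `x` -/
def Wh (N : V → Finset V) (s : Finset V × Finset V) (x : V) : Finset V := N x \ (s.1 ∪ s.2)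

/-- the red vertex `x` turns blue -/
def rem (s : Finset V × Finset V) (x : V) : Finset V × Finset V := (s.1.erase x, insert x s.2)

/-- the white vertex `z` turns red -/
def inf (s : Finset V × Finset V) (z : V) : Finset V × Finset V := (insert z s.1, s.2)

/-- absorption within `n` jumps -/
def A (N : V → Finset V) (c : Finset V × Finset V → V → ℝ) (l : ℝ) :
    ℕ → Finset V × Finset V → ℝ
  | 0, s => if s.1 = ∅ then 1 else 0
  | n + 1, s => if s.1 = ∅ then 1 else
      (∑ x ∈ s.1, (c s x * A N c l n (rem s x) + l * ∑ z ∈ Wh N s x, A N c l n (inf s z))) /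
        (∑ x ∈ s.1, (c s x + l * (Wh N s x).card))

variable (N : V → Finset V)

theorem mem_Wh {s : Finset V × Finset V} {x z : V} :
    z ∈ Wh N s x ↔ z ∈ N x ∧ z ∉ s.1 ∧ z ∉ s.2 := by
  unfold Wh
  rw [mem_sdiff, mem_union, not_or]

theorem Wh_rem {s : Finset V × Finset V} {x y : V} (hx : x ∈ s.1) :
    Wh N (rem s x) y = Wh N s y := by
  ext z
  rw [mem_Wh, mem_Wh]
  unfold rem
  simp only [mem_erase, mem_insert, not_and, not_or]
  constructor
  · rintro ⟨h1, h2, h3, h4⟩
    exact ⟨h1, h2 h3, h4⟩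
  · rintro ⟨h1, h2, h3⟩
    exact ⟨h1, fun _ => h2, fun h => h2 (h ▸ hx), h3⟩

theorem Wh_inf {s : Finset V × Finset V} {x w : V} :
    Wh N (inf s w) x = (Wh N s x).erase w := by
  ext z
  rw [mem_erase, mem_Wh, mem_Wh]
  unfold inf
  simp only [mem_insert, not_or]
  tauto

theorem rem_rem {s : Finset V × Finset V} {x y : V} : rem (rem s x) y = rem (rem s y) x := by
  unfold rem
  simp only [Prod.mk.injEq]
  exact ⟨erase_right_comm, Finset.insert_comm _ _ _⟩

theorem inf_inf {s : Finset V × Finset V} {x y : V} : inf (inf s x) y = inf (inf s y) x := by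
  unfold inf
  simp only [Prod.mk.injEq]
  exact ⟨Finset.insert_comm _ _ _, trivial⟩

theorem inf_rem {s : Finset V × Finset V} {x w : V} (h : w ≠ x) :
    inf (rem s x) w = rem (inf s w) x := by
  unfold inf rem
  simp only [Prod.mk.injEq]
  exact ⟨(erase_insert_of_ne h).symm, trivial⟩

/-- the epidemic without predation, spreading rate `θ` -/
def g (θ : ℝ) (n : ℕ) (s : Finset V × Finset V) : ℝ := A N (fun _ _ => 1) θ n s

theorem g_zero (θ : ℝ) (s : Finset V × Finset V) : g N θ 0 s = if s.1 = ∅ then 1 else 0 := rfl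

theorem g_empty (θ : ℝ) (n : ℕ) {s : Finset V × Finset V} (h : s.1 = ∅) : g N θ n s = 1 := by
  unfold g
  cases n <;> simp [A, h]

theorem g_succ (θ : ℝ) (n : ℕ) {s : Finset V × Finset V} (h : s.1 ≠ ∅) :
    g N θ (n + 1) s = (∑ x ∈ s.1, (g N θ n (rem s x) + θ * ∑ z ∈ Wh N s x, g N θ n (inf s z))) /
        (∑ x ∈ s.1, (1 + θ * (Wh N s x).card)) := by
  unfold g
  simp only [A, h, if_false, one_mul]

theorem A_empty (c : Finset V × Finset V → V → ℝ) (l : ℝ) (n : ℕ) {s : Finset V × Finset V}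
    (h : s.1 = ∅) : A N c l n s = 1 := by
  cases n <;> simp [A, h]

theorem A_nonneg {c : Finset V × Finset V → V → ℝ} {l : ℝ} (hc : ∀ s x, 0 < c s x) (hl : 0 ≤ l)
    (n : ℕ) (s : Finset V × Finset V) : 0 ≤ A N c l n s := by
  induction n generalizing s with
  | zero => simp only [A]; split_ifs <;> norm_num
  | succ n ih =>
    simp only [A]
    split_ifs
    · norm_num
    · refine div_nonneg (sum_nonneg fun x _ => ?_) (sum_nonneg fun x _ => ?_)
      · exact add_nonneg (mul_nonneg (hc s x).le (ih _)) (mul_nonneg hl (sum_nonneg fun z _ => ih _))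
      · exact add_nonneg (hc s x).le (mul_nonneg hl (Nat.cast_nonneg _))

theorem den_pos {c : Finset V × Finset V → V → ℝ} {l : ℝ} (hc : ∀ s x, 0 < c s x) (hl : 0 ≤ l)
    {s : Finset V × Finset V} (h : s.1 ≠ ∅) :
    0 < ∑ x ∈ s.1, (c s x + l * (Wh N s x).card) :=
  sum_pos (fun x _ => add_pos_of_pos_of_nonneg (hc s x) (mul_nonneg hl (Nat.cast_nonneg _)))
    (nonempty_iff_ne_empty.mpr h)

theorem A_le_one {c : Finset V × Finset V → V → ℝ} {l : ℝ} (hc : ∀ s x, 0 < c s x) (hl : 0 ≤ l)
    (n : ℕ) (s : Finset V × Finset V) : A N c l n s ≤ 1 := by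
  induction n generalizing s with
  | zero => simp only [A]; split_ifs <;> norm_num
  | succ n ih =>
    simp only [A]
    split_ifs with h
    · exact le_refl _
    · rw [div_le_one (den_pos N hc hl h)]
      refine sum_le_sum fun x _ => ?_
      refine add_le_add ?_ (mul_le_mul_of_nonneg_left ?_ hl)
      · exact mul_le_of_le_one_right (hc s x).le (ih _)
      · calc ∑ z ∈ Wh N s x, A N c l n (inf s z) ≤ ∑ z ∈ Wh N s x, (1 : ℝ) :=
              sum_le_sum fun z _ => ih _
          _ = _ := by simp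

theorem g_nonneg {θ : ℝ} (hθ : 0 ≤ θ) (n : ℕ) (s : Finset V × Finset V) : 0 ≤ g N θ n s :=
  A_nonneg N (fun _ _ => one_pos) hθ n s

theorem g_le_one {θ : ℝ} (hθ : 0 ≤ θ) (n : ℕ) (s : Finset V × Finset V) : g N θ n s ≤ 1 :=
  A_le_one N (fun _ _ => one_pos) hθ n s

/-- card of an erased set -/
theorem card_er (W : Finset V) (w : V) :
    (((W.erase w).card : ℕ) : ℝ) = (W.card : ℝ) - if w ∈ W then 1 else 0 := by
  by_cases h : w ∈ W
  · rw [if_pos h, card_erase_of_mem h, Nat.cast_sub (card_pos.mpr ⟨w, h⟩)]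
    simp
  · rw [if_neg h, erase_eq_of_notMem h, sub_zero]

theorem sum_er (W : Finset V) (w : V) (f : V → ℝ) :
    ∑ z ∈ W.erase w, f z = ∑ z ∈ W, if z = w then 0 else f z := by
  rw [← sum_filter_add_sum_filter_not W (fun z => z = w)]
  have h1 : ∑ z ∈ W with z = w, (if z = w then 0 else f z) = 0 :=
    sum_eq_zero fun z hz => by rw [if_pos (mem_filter.mp hz).2]
  rw [h1, zero_add]
  have h2 : W.erase w = W.filter (fun z => ¬ z = w) := by
    ext z; simp only [mem_erase, mem_filter]; tauto
  rw [h2]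
  exact sum_congr rfl fun z hz => by rw [if_neg (mem_filter.mp hz).2]

/-- **the epidemic can be followed from any single red vertex** -/
theorem abel {θ : ℝ} (hθ : 0 ≤ θ) (n : ℕ) : ∀ (s : Finset V × Finset V) (x : V), x ∈ s.1 →
    (1 + θ * (Wh N s x).card) * g N θ (n + 1) s
      = g N θ n (rem s x) + θ * ∑ z ∈ Wh N s x, g N θ n (inf s z) := by
  -- it is enough to show that the normalised right-hand side does not depend on `x`
  have key : ∀ (m : ℕ), (∀ (s : Finset V × Finset V) (x y : V), x ∈ s.1 → y ∈ s.1 →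
      (1 + θ * (Wh N s y).card) * (g N θ m (rem s x) + θ * ∑ z ∈ Wh N s x, g N θ m (inf s z))
      = (1 + θ * (Wh N s x).card) *
        (g N θ m (rem s y) + θ * ∑ z ∈ Wh N s y, g N θ m (inf s z))) →
      ∀ (s : Finset V × Finset V) (x : V), x ∈ s.1 →
      (1 + θ * (Wh N s x).card) * g N θ (m + 1) s
        = g N θ m (rem s x) + θ * ∑ z ∈ Wh N s x, g N θ m (inf s z) := by
    intro m hm s x hx
    have hne : s.1 ≠ ∅ := ne_empty_of_mem hx
    rw [g_succ N θ m hne]
    have hD : (0 : ℝ) < ∑ y ∈ s.1, (1 + θ * (Wh N s y).card) :=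
      den_pos N (c := fun _ _ => 1) (fun _ _ => one_pos) hθ hne
    rw [mul_div_assoc', div_eq_iff hD.ne', mul_sum, mul_sum]
    refine sum_congr rfl fun y hy => ?_
    rw [hm s y x hy hx]
    ring
  induction n with
  | zero =>
    refine key 0 ?_
    intro s x y hx hy
    by_cases hxy : x = y
    · subst hxy; rfl
    · have e1 : ∀ z, g N θ 0 (inf s z) = 0 := by
        intro z
        rw [g_zero, if_neg]
        unfold inf
        exact insert_ne_empty _ _
      have e2 : g N θ 0 (rem s x) = 0 := by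
        rw [g_zero, if_neg]
        unfold rem
        exact ne_empty_of_mem (mem_erase.mpr ⟨fun h => hxy h.symm, hy⟩)
      have e3 : g N θ 0 (rem s y) = 0 := by
        rw [g_zero, if_neg]
        unfold rem
        exact ne_empty_of_mem (mem_erase.mpr ⟨hxy, hx⟩)
      simp only [e1, e2, e3, sum_const_zero, mul_zero, add_zero]
  | succ m ih =>
    refine key (m + 1) ?_
    intro s x y hx hy
    by_cases hxy : x = y
    · subst hxy; rfl
    set Wx := Wh N s x with hWx
    set Wy := Wh N s y with hWy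
    set G : V → ℝ := fun w => g N θ (m + 1) (inf s w) with hG
    set Q : V → V → ℝ := fun w z => g N θ m (inf (inf s w) z) with hQ
    have hQs : ∀ w z, Q w z = Q z w := fun w z => by simp only [hQ]; rw [inf_inf]
    have H1 : (1 + θ * Wy.card) * g N θ (m + 1) (rem s x)
        = g N θ m (rem (rem s x) y) + θ * ∑ w ∈ Wy, g N θ m (inf (rem s x) w) := by
      have := ih (rem s x) y (by unfold rem; exact mem_erase.mpr ⟨fun h => hxy h.symm, hy⟩)
      rwa [Wh_rem N hx] at this
    have H3 : (1 + θ * Wx.card) * g N θ (m + 1) (rem s y)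
        = g N θ m (rem (rem s y) x) + θ * ∑ w ∈ Wx, g N θ m (inf (rem s y) w) := by
      have := ih (rem s y) x (by unfold rem; exact mem_erase.mpr ⟨hxy, hx⟩)
      rwa [Wh_rem N hy] at this
    have H2 : ∀ w ∈ Wy, g N θ m (inf (rem s x) w)
        = (1 + θ * (Wx.card - if w ∈ Wx then 1 else 0)) * G w
          - θ * ∑ z ∈ Wx, if z = w then 0 else Q w z := by
      intro w hw
      have hwx : w ≠ x := by
        rintro rfl
        exact ((mem_Wh N).mp hw).2.1 hx
      have := ih (inf s w) x (by unfold inf; exact mem_insert_of_mem hx)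
      rw [Wh_inf, card_er, ← inf_rem hwx, sum_er] at this
      simp only [hG, hQ]
      rw [this]
      ring
    have H4 : ∀ w ∈ Wx, g N θ m (inf (rem s y) w)
        = (1 + θ * (Wy.card - if w ∈ Wy then 1 else 0)) * G w
          - θ * ∑ z ∈ Wy, if z = w then 0 else Q w z := by
      intro w hw
      have hwy : w ≠ y := by
        rintro rfl
        exact ((mem_Wh N).mp hw).2.1 hy
      have := ih (inf s w) y (by unfold inf; exact mem_insert_of_mem hy)
      rw [Wh_inf, card_er, ← inf_rem hwy, sum_er] at this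
      simp only [hG, hQ]
      rw [this]
      ring
    rw [mul_add, H1, sum_congr rfl H2, mul_add (1 + θ * (Wx.card : ℝ)), H3, sum_congr rfl H4,
      rem_rem (x := x) (y := y)]
    have e1 : ∀ (W U : Finset V), ∑ w ∈ W, ((1 + θ * ((U.card : ℝ) - if w ∈ U then 1 else 0)) * G w
        - θ * ∑ z ∈ U, if z = w then 0 else Q w z)
        = (1 + θ * U.card) * ∑ w ∈ W, G w - θ * ∑ w ∈ W, (if w ∈ U then G w else 0)
          - θ * ∑ w ∈ W, ∑ z ∈ U, if z = w then 0 else Q w z := by
      intro W U
      rw [mul_sum, mul_sum, mul_sum, ← sum_sub_distrib, ← sum_sub_distrib]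
      refine sum_congr rfl fun w _ => ?_
      split_ifs <;> ring
    rw [e1, e1]
    have e2 : ∑ w ∈ Wy, ∑ z ∈ Wx, (if z = w then 0 else Q w z)
        = ∑ w ∈ Wx, ∑ z ∈ Wy, (if z = w then 0 else Q w z) := by
      rw [sum_comm]
      refine sum_congr rfl fun w _ => sum_congr rfl fun z _ => ?_
      rw [hQs z w]
      by_cases h : w = z
      · rw [if_pos h, if_pos h.symm]
      · rw [if_neg h, if_neg fun h' => h h'.symm]
    have e3 : ∑ w ∈ Wy, (if w ∈ Wx then G w else 0) = ∑ w ∈ Wx, (if w ∈ Wy then G w else 0) := by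
      rw [← sum_filter, ← sum_filter]
      refine sum_congr ?_ fun _ _ => rfl
      ext w; simp only [mem_filter]; tauto
    rw [e2, e3]
    ring

omit [DecidableEq V] in
theorem pos_w {θ : ℝ} (hθ : 0 ≤ θ) (W : Finset V) : (0 : ℝ) < 1 + θ * W.card := by
  have := mul_nonneg hθ (Nat.cast_nonneg (α := ℝ) W.card)
  linarith

/-- infecting a white vertex cannot help absorption -/
theorem mono_inf {θ : ℝ} (hθ : 0 ≤ θ) (n : ℕ) : ∀ (s : Finset V × Finset V) (z : V),
    z ∉ s.1 → z ∉ s.2 → g N θ n (inf s z) ≤ g N θ (n + 1) s := by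
  induction n with
  | zero =>
    intro s z _ _
    have : g N θ 0 (inf s z) = 0 := by
      rw [g_zero, if_neg]
      unfold inf
      exact insert_ne_empty _ _
    rw [this]
    exact g_nonneg N hθ _ _
  | succ n ih =>
    intro s z hz1 hz2
    by_cases hs : s.1 = ∅
    · rw [g_empty N θ _ hs]
      exact g_le_one N hθ _ _
    obtain ⟨x, hx⟩ := nonempty_iff_ne_empty.mpr hs
    have hzx : z ≠ x := fun h => hz1 (h ▸ hx)
    have E1 := abel N hθ (n + 1) s x hx
    have E2 := abel N hθ n (inf s z) x (by unfold inf; exact mem_insert_of_mem hx)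
    rw [Wh_inf, ← inf_rem hzx] at E2
    have I1 : g N θ n (inf (rem s x) z) ≤ g N θ (n + 1) (rem s x) := by
      refine ih _ _ ?_ ?_
      · unfold rem; exact fun h => hz1 (mem_of_mem_erase h)
      · unfold rem; rw [mem_insert, not_or]; exact ⟨hzx, hz2⟩
    have I2 : ∑ w ∈ (Wh N s x).erase z, g N θ n (inf (inf s z) w)
        ≤ ∑ w ∈ (Wh N s x).erase z, g N θ (n + 1) (inf s w) := by
      refine sum_le_sum fun w hw => ?_
      rw [inf_inf]
      refine ih _ _ ?_ ?_
      · unfold inf
        rw [mem_insert, not_or]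
        exact ⟨fun h => (mem_erase.mp hw).1 h.symm, hz1⟩
      · exact hz2
    have I3 := mul_le_mul_of_nonneg_left I2 hθ
    have hpos := pos_w hθ (Wh N s x)
    by_cases hzW : z ∈ Wh N s x
    · have e4 : ∑ w ∈ Wh N s x, g N θ (n + 1) (inf s w)
          = g N θ (n + 1) (inf s z) + ∑ w ∈ (Wh N s x).erase z, g N θ (n + 1) (inf s w) :=
        (add_sum_erase _ _ hzW).symm
      rw [card_er, if_pos hzW] at E2
      rw [e4] at E1
      refine le_of_mul_le_mul_left ?_ hpos
      rw [E1]
      nlinarith [E2, I1, I3]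
    · rw [erase_eq_of_notMem hzW] at E2 I3
      refine le_of_mul_le_mul_left ?_ hpos
      rw [E1, E2]
      linarith

/-- comparison of a general removal mechanism with the epidemic, lower bound -/
theorem cmp_ge {c : Finset V × Finset V → V → ℝ} {l θ : ℝ} (hc : ∀ s x, 0 < c s x) (hl : 0 ≤ l)
    (hθ : 0 ≤ θ) (h : ∀ s x, l ≤ θ * c s x) (n : ℕ) :
    ∀ s : Finset V × Finset V, g N θ n s ≤ A N c l n s := by
  induction n with
  | zero => intro s; exact le_refl _
  | succ n ih =>
    intro s
    by_cases hs : s.1 = ∅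
    · rw [g_empty N θ _ hs, A_empty N c l _ hs]
    have hD := den_pos N hc hl hs
    simp only [A, hs, if_false]
    rw [le_div_iff₀ hD, mul_sum]
    refine sum_le_sum fun x hx => ?_
    have E := abel N hθ n s x hx
    have h1 : c s x * g N θ n (rem s x) ≤ c s x * A N c l n (rem s x) :=
      mul_le_mul_of_nonneg_left (ih _) (hc s x).le
    have h2 : l * ∑ z ∈ Wh N s x, g N θ n (inf s z) ≤ l * ∑ z ∈ Wh N s x, A N c l n (inf s z) :=
      mul_le_mul_of_nonneg_left (sum_le_sum fun z _ => ih _) hl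
    have h3 : ∑ z ∈ Wh N s x, g N θ n (inf s z) ≤ (Wh N s x).card * g N θ (n + 1) s := by
      calc ∑ z ∈ Wh N s x, g N θ n (inf s z) ≤ ∑ z ∈ Wh N s x, g N θ (n + 1) s :=
            sum_le_sum fun z hz => mono_inf N hθ n s z ((mem_Wh N).mp hz).2.1 ((mem_Wh N).mp hz).2.2
        _ = _ := by rw [sum_const, nsmul_eq_mul]
    have h4 := h s x
    have h5 : 0 ≤ (θ * c s x - l) * ((Wh N s x).card * g N θ (n + 1) s
        - ∑ z ∈ Wh N s x, g N θ n (inf s z)) := mul_nonneg (by linarith) (by linarith)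
    have h6 : g N θ n (rem s x) = (1 + θ * (Wh N s x).card) * g N θ (n + 1) s
        - θ * ∑ z ∈ Wh N s x, g N θ n (inf s z) := by linarith
    have h7 : g N θ (n + 1) s * (c s x + l * (Wh N s x).card)
        ≤ c s x * g N θ n (rem s x) + l * ∑ z ∈ Wh N s x, g N θ n (inf s z) := by
      rw [h6]
      linarith
    linarith

/-- comparison of a general removal mechanism with the epidemic, upper bound -/
theorem cmp_le {c : Finset V × Finset V → V → ℝ} {l θ : ℝ} (hc : ∀ s x, 0 < c s x) (hl : 0 ≤ l)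
    (hθ : 0 ≤ θ) (n : ℕ) :
    ∀ s : Finset V × Finset V, (∀ s x, θ * c s x ≤ l) → A N c l n s ≤ g N θ n s := by
  intro s h
  induction n generalizing s with
  | zero => exact le_refl _
  | succ n ih =>
    by_cases hs : s.1 = ∅
    · rw [g_empty N θ _ hs, A_empty N c l _ hs]
    have hD := den_pos N hc hl hs
    simp only [A, hs, if_false]
    rw [div_le_iff₀ hD, mul_sum]
    refine sum_le_sum fun x hx => ?_
    have E := abel N hθ n s x hx
    have h1 : c s x * A N c l n (rem s x) ≤ c s x * g N θ n (rem s x) :=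
      mul_le_mul_of_nonneg_left (ih _) (hc s x).le
    have h2 : l * ∑ z ∈ Wh N s x, A N c l n (inf s z) ≤ l * ∑ z ∈ Wh N s x, g N θ n (inf s z) :=
      mul_le_mul_of_nonneg_left (sum_le_sum fun z _ => ih _) hl
    have h3 : ∑ z ∈ Wh N s x, g N θ n (inf s z) ≤ (Wh N s x).card * g N θ (n + 1) s := by
      calc ∑ z ∈ Wh N s x, g N θ n (inf s z) ≤ ∑ z ∈ Wh N s x, g N θ (n + 1) s :=
            sum_le_sum fun z hz => mono_inf N hθ n s z ((mem_Wh N).mp hz).2.1 ((mem_Wh N).mp hz).2.2
        _ = _ := by rw [sum_const, nsmul_eq_mul]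
    have h4 := h s x
    have h5 : 0 ≤ (l - θ * c s x) * ((Wh N s x).card * g N θ (n + 1) s
        - ∑ z ∈ Wh N s x, g N θ n (inf s z)) := mul_nonneg (by linarith) (by linarith)
    have h6 : g N θ n (rem s x) = (1 + θ * (Wh N s x).card) * g N θ (n + 1) s
        - θ * ∑ z ∈ Wh N s x, g N θ n (inf s z) := by linarith
    have h7 : c s x * g N θ n (rem s x) + l * ∑ z ∈ Wh N s x, g N θ n (inf s z)
        ≤ g N θ (n + 1) s * (c s x + l * (Wh N s x).card) := by
      rw [h6]
      linarith
    linarith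

/-- the epidemic is monotone in the spreading rate -/
theorem g_anti {θ θ' : ℝ} (h0 : 0 ≤ θ) (h : θ ≤ θ') (n : ℕ) (s : Finset V × Finset V) :
    g N θ' n s ≤ g N θ n s :=
  cmp_le N (c := fun _ _ => 1) (l := θ') (θ := θ) (fun _ _ => one_pos) (h0.trans h) h0 n s
    (fun _ _ => by rw [mul_one]; exact h)

/-- slow spreading dies out -/
theorem small (hN : ∀ x, (N x).card ≤ 4) (n : ℕ) : ∀ s : Finset V × Finset V,
    1 - g N (1 / 16) n s ≤ (4 / 5) ^ n * 2 ^ s.1.card := by
  induction n with
  | zero =>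
    intro s
    have h1 := g_nonneg N (θ := 1 / 16) (by norm_num) 0 s
    have h2 : (1 : ℝ) ≤ 2 ^ s.1.card := one_le_pow₀ (by norm_num)
    rw [pow_zero, one_mul]
    linarith
  | succ n ih =>
    intro s
    by_cases hs : s.1 = ∅
    · rw [g_empty N _ _ hs, sub_self]
      positivity
    obtain ⟨x, hx⟩ := nonempty_iff_ne_empty.mpr hs
    have hθ : (0 : ℝ) ≤ 1 / 16 := by norm_num
    have E := abel N hθ n s x hx
    have hcard : (rem s x).1.card + 1 = s.1.card := card_erase_add_one hx
    have h1 := ih (rem s x)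
    have h2 : ∑ z ∈ Wh N s x, (1 - g N (1 / 16) n (inf s z))
        ≤ ∑ z ∈ Wh N s x, ((4 / 5 : ℝ) ^ n * 2 ^ (s.1.card + 1)) := by
      refine sum_le_sum fun z hz => ?_
      have h3 := ih (inf s z)
      have h4 : (inf s z).1.card = s.1.card + 1 := card_insert_of_notMem ((mem_Wh N).mp hz).2.1
      rwa [h4] at h3
    rw [sum_sub_distrib, sum_const, sum_const, nsmul_eq_mul, nsmul_eq_mul, mul_one] at h2
    have hW : ((Wh N s x).card : ℝ) ≤ 4 := by
      have : (Wh N s x).card ≤ 4 := (card_le_card sdiff_subset).trans (hN x)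
      exact_mod_cast this
    have hW0 : (0 : ℝ) ≤ ((Wh N s x).card : ℝ) := Nat.cast_nonneg _
    set a : ℝ := ((Wh N s x).card : ℝ) with ha
    set Z : ℝ := (4 / 5 : ℝ) ^ n * 2 ^ (rem s x).1.card with hZ
    have hZ0 : 0 < Z := by positivity
    have e1 : (4 / 5 : ℝ) ^ n * 2 ^ (s.1.card + 1) = 4 * Z := by
      rw [hZ, ← hcard]; ring
    have e2 : (4 / 5 : ℝ) ^ (n + 1) * 2 ^ s.1.card = 8 / 5 * Z := by
      rw [hZ, ← hcard]; ring
    rw [e1] at h2
    rw [e2]
    have hpos : (0 : ℝ) < 1 + 1 / 16 * a := by positivity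
    refine le_of_mul_le_mul_left ?_ hpos
    have : (1 + 1 / 16 * a) * (1 - g N (1 / 16) (n + 1) s)
        = (1 - g N (1 / 16) n (rem s x))
          + 1 / 16 * (a - ∑ z ∈ Wh N s x, g N (1 / 16) n (inf s z)) := by
      rw [mul_sub, E]; ring
    rw [this]
    nlinarith [mul_nonneg hW0 hZ0.le]

end

end Pool.Agent.R113.CE
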