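import Mathlib
import Pool.Agent.R113.CE.Alg
import Pool.Agent.H592F.OrientProb

/-!
# Fast spreading survives: comparison with oriented site percolation
-/

set_option autoImplicit false

open Finset MeasureTheory ProbabilityTheory

namespace Pool.Agent.R113.CE

noncomputable section

section General

variable {V : Type*} [DecidableEq V] (N : V → Finset V)

/-- integer fuel -/
def gz (θ : ℝ) (k : ℤ) (s : Finset V × Finset V) : ℝ := if k < 0 then 0 else g N θ k.toNat s

theorem gz_neg {θ : ℝ} {k : ℤ} {s : Finset V × Finset V} (h : k < 0) : gz N θ k s = 0 := if_pos h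

theorem gz_coe (θ : ℝ) (n : ℕ) (s : Finset V × Finset V) : gz N θ (n : ℤ) s = g N θ n s := by
  unfold gz
  rw [if_neg (by omega), Int.toNat_natCast]

theorem gz_nonneg {θ : ℝ} (hθ : 0 ≤ θ) (k : ℤ) (s : Finset V × Finset V) : 0 ≤ gz N θ k s := by
  unfold gz
  split_ifs
  · exact le_refl _
  · exact g_nonneg N hθ _ _

theorem gz_le_one {θ : ℝ} (hθ : 0 ≤ θ) (k : ℤ) (s : Finset V × Finset V) : gz N θ k s ≤ 1 := by
  unfold gz
  split_ifs
  · norm_num
  · exact g_le_one N hθ _ _

theorem gz_abel {θ : ℝ} (hθ : 0 ≤ θ) (k : ℤ) (s : Finset V × Finset V) (x : V) (hx : x ∈ s.1) :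
    (1 + θ * (Wh N s x).card) * gz N θ (k + 1) s
      = gz N θ k (rem s x) + θ * ∑ z ∈ Wh N s x, gz N θ k (inf s z) := by
  rcases lt_or_ge k 0 with hk | hk
  · have h1 : ∑ z ∈ Wh N s x, gz N θ k (inf s z) = 0 := sum_eq_zero fun z _ => gz_neg N hk
    rw [gz_neg N hk, h1]
    rcases lt_or_ge (k + 1) 0 with hk1 | hk1
    · rw [gz_neg N hk1]; ring
    · have : k + 1 = ((0 : ℕ) : ℤ) := by push_cast; omega
      rw [this, gz_coe, g_zero, if_neg (ne_empty_of_mem hx)]
      ring
  · obtain ⟨n, rfl⟩ := Int.eq_ofNat_of_zero_le hk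
    have : ((n : ℤ) + 1) = ((n + 1 : ℕ) : ℤ) := by push_cast; rfl
    rw [this, gz_coe, gz_coe, abel N hθ n s x hx]
    simp only [gz_coe]

theorem gz_mono {θ : ℝ} (hθ : 0 ≤ θ) (k : ℤ) (s : Finset V × Finset V) (z : V)
    (h1 : z ∉ s.1) (h2 : z ∉ s.2) : gz N θ k (inf s z) ≤ gz N θ (k + 1) s := by
  rcases lt_or_ge k 0 with hk | hk
  · rw [gz_neg N hk]; exact gz_nonneg N hθ _ _
  · obtain ⟨n, rfl⟩ := Int.eq_ofNat_of_zero_le hk
    have : ((n : ℤ) + 1) = ((n + 1 : ℕ) : ℤ) := by push_cast; rfl
    rw [this, gz_coe, gz_coe]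
    exact mono_inf N hθ n s z h1 h2

/-- `x` infects all its white neighbours and turns blue -/
def full (s : Finset V × Finset V) (x : V) : Finset V × Finset V := rem (s.1 ∪ Wh N s x, s.2) x

theorem full_bound {θ : ℝ} (hθ : 0 < θ) (a : ℕ) : ∀ (s : Finset V × Finset V) (x : V) (k : ℤ),
    x ∈ s.1 → (Wh N s x).card = a →
    gz N θ (k - a) (full N s x) ≤ gz N θ k (rem s x) ∧
    gz N θ (k + 1) s ≤ gz N θ (k - a) (full N s x)
      + (a / θ) * (gz N θ k (rem s x) - gz N θ (k - a) (full N s x)) := by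
  induction a with
  | zero =>
    intro s x k hx ha
    have hW : Wh N s x = ∅ := card_eq_zero.mp ha
    have hf : full N s x = rem s x := by unfold full; rw [hW, union_empty]
    have E := gz_abel N hθ.le k s x hx
    rw [hW] at E
    simp only [card_empty, Nat.cast_zero, mul_zero, add_zero, one_mul, sum_empty] at E
    rw [hf, E]
    simp
  | succ a ih =>
    intro s x k hx ha
    have hz : ∀ z ∈ Wh N s x,
        gz N θ (k - ((a + 1 : ℕ) : ℤ)) (full N s x) ≤ gz N θ (k - 1) (rem (inf s z) x) ∧
        gz N θ k (inf s z) ≤ gz N θ (k - ((a + 1 : ℕ) : ℤ)) (full N s x)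
        + (a / θ) * (gz N θ k (rem s x) - gz N θ (k - ((a + 1 : ℕ) : ℤ)) (full N s x)) ∧
        gz N θ (k - 1) (rem (inf s z) x) ≤ gz N θ k (rem s x) := by
      intro z hz
      have hzs := (mem_Wh N).mp hz
      have hzx : z ≠ x := fun h => hzs.2.1 (h ▸ hx)
      have hx' : x ∈ (inf s z).1 := by unfold inf; exact mem_insert_of_mem hx
      have hc : (Wh N (inf s z) x).card = a := by
        rw [Wh_inf, card_erase_of_mem hz, ha]; rfl
      have hI := ih (inf s z) x (k - 1) hx' hc
      have hf : full N (inf s z) x = full N s x := by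
        unfold full
        rw [Wh_inf]
        unfold inf
        simp only
        have : insert z s.1 ∪ (Wh N s x).erase z = s.1 ∪ Wh N s x := by
          ext v
          simp only [mem_union, mem_insert, mem_erase]
          constructor
          · rintro ((rfl | h) | ⟨_, h⟩)
            · exact Or.inr hz
            · exact Or.inl h
            · exact Or.inr h
          · rintro (h | h)
            · exact Or.inl (Or.inr h)
            · by_cases hv : v = z
              · exact Or.inl (Or.inl hv)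
              · exact Or.inr ⟨hv, h⟩
        rw [this]
      have e1 : k - 1 - (a : ℤ) = k - ((a + 1 : ℕ) : ℤ) := by push_cast; ring
      have e2 : k - 1 + 1 = k := by ring
      rw [hf, e1, e2] at hI
      have hm : gz N θ (k - 1) (rem (inf s z) x) ≤ gz N θ k (rem s x) := by
        rw [← inf_rem hzx]
        have := gz_mono N hθ.le (k - 1) (rem s x) z
          (by unfold rem; exact fun h => hzs.2.1 (mem_of_mem_erase h))
          (by unfold rem; rw [mem_insert, not_or]; exact ⟨hzx, hzs.2.2⟩)
        rwa [e2] at this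
      refine ⟨hI.1, hI.2.trans ?_, hm⟩
      have : (0 : ℝ) ≤ a / θ := by positivity
      nlinarith [mul_le_mul_of_nonneg_left hm this]
    have hne : (Wh N s x).Nonempty := card_pos.mp (by omega)
    obtain ⟨z0, hz0⟩ := hne
    have h0 := hz z0 hz0
    have hXY : gz N θ (k - ((a + 1 : ℕ) : ℤ)) (full N s x) ≤ gz N θ k (rem s x) :=
      h0.1.trans h0.2.2
    refine ⟨hXY, ?_⟩
    have E := gz_abel N hθ.le k s x hx
    have hS : ∑ z ∈ Wh N s x, gz N θ k (inf s z) ≤ ((a + 1 : ℕ) : ℝ) *
        (gz N θ (k - ((a + 1 : ℕ) : ℤ)) (full N s x)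
        + (a / θ) * (gz N θ k (rem s x) - gz N θ (k - ((a + 1 : ℕ) : ℤ)) (full N s x))) := by
      calc _ ≤ ∑ z ∈ Wh N s x, (gz N θ (k - ((a + 1 : ℕ) : ℤ)) (full N s x)
        + (a / θ) * (gz N θ k (rem s x) - gz N θ (k - ((a + 1 : ℕ) : ℤ)) (full N s x))) :=
            sum_le_sum fun z h => (hz z h).2.1
        _ = _ := by rw [sum_const, nsmul_eq_mul, ha]
    rw [ha] at E
    set X := gz N θ (k - ((a + 1 : ℕ) : ℤ)) (full N s x)
    set Y := gz N θ k (rem s x)
    have hpos : (0 : ℝ) < 1 + θ * ((a + 1 : ℕ) : ℝ) := by positivity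
    refine le_of_mul_le_mul_left ?_ hpos
    rw [E]
    have h1 := mul_le_mul_of_nonneg_left hS hθ.le
    push_cast at h1 ⊢
    have h2 : θ * (((a : ℝ) + 1) * (X + (a : ℝ) / θ * (Y - X)))
        = θ * (a + 1) * X + (a + 1) * a * (Y - X) := by
      field_simp
    have h3 : (1 + θ * ((a : ℝ) + 1)) * (X + ((a : ℝ) + 1) / θ * (Y - X))
        = X + θ * (a + 1) * X + ((a + 1) / θ + (a + 1) * (a + 1)) * (Y - X) := by
      field_simp
    rw [h3]
    rw [h2] at h1
    have h4 : 0 ≤ (((a : ℝ) + 1) / θ + a) * (Y - X) :=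
      mul_nonneg (by positivity) (by linarith)
    nlinarith

theorem full_bound4 {θ : ℝ} (hθ : 0 < θ) (hN : ∀ x, (N x).card ≤ 4) (s : Finset V × Finset V)
    (x : V) (k : ℤ) (hx : x ∈ s.1) : ∃ j ≤ k,
    gz N θ (k + 1) s ≤ (1 - 4 / θ) * gz N θ j (full N s x) + 4 / θ * gz N θ k (rem s x) := by
  obtain ⟨h1, h2⟩ := full_bound N hθ (Wh N s x).card s x k hx rfl
  refine ⟨k - (Wh N s x).card, by omega, h2.trans ?_⟩
  have hW : ((Wh N s x).card : ℝ) ≤ 4 := by
    have : (Wh N s x).card ≤ 4 := (card_le_card sdiff_subset).trans (hN x)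
    exact_mod_cast this
  have h3 : ((Wh N s x).card : ℝ) / θ ≤ 4 / θ := div_le_div_of_nonneg_right hW hθ.le
  nlinarith [mul_le_mul_of_nonneg_right h3 (sub_nonneg.mpr h1)]

/-- a vertex of a nonempty finite set -/
def pick (s : Finset V) (h : s.Nonempty) : V := Classical.choose h

omit [DecidableEq V] in
theorem pick_mem (s : Finset V) (h : s.Nonempty) : pick s h ∈ s := Classical.choose_spec h

/-- the event that the exploration through good vertices stops -/
def D : ℕ → Finset V × Finset V → Set (V → Bool)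
  | 0, s => {_ω | s.1 = ∅}
  | n + 1, s => if h : s.1.Nonempty then
      ({ω | ω (pick s.1 h) = false} ∩ D n (full N s (pick s.1 h))) ∪
        ({ω | ω (pick s.1 h) = true} ∩ D n (rem s (pick s.1 h)))
    else Set.univ

/-- the vertices on which it depends -/
def dp : ℕ → Finset V × Finset V → Finset V
  | 0, _ => ∅
  | n + 1, s => if h : s.1.Nonempty then
      insert (pick s.1 h) (dp n (full N s (pick s.1 h)) ∪ dp n (rem s (pick s.1 h)))
    else ∅

theorem D_succ (n : ℕ) (s : Finset V × Finset V) : D N (n + 1) s =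
    if h : s.1.Nonempty then
      ({ω | ω (pick s.1 h) = false} ∩ D N n (full N s (pick s.1 h))) ∪
        ({ω | ω (pick s.1 h) = true} ∩ D N n (rem s (pick s.1 h)))
    else Set.univ := rfl

theorem dp_succ (n : ℕ) (s : Finset V × Finset V) : dp N (n + 1) s =
    if h : s.1.Nonempty then
      insert (pick s.1 h) (dp N n (full N s (pick s.1 h)) ∪ dp N n (rem s (pick s.1 h)))
    else ∅ := rfl

theorem D_dep (n : ℕ) : ∀ (s : Finset V × Finset V) (ω ω' : V → Bool),
    (∀ v ∈ dp N n s, ω v = ω' v) → (ω ∈ D N n s ↔ ω' ∈ D N n s) := by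
  induction n with
  | zero => intro s ω ω' _; exact Iff.rfl
  | succ n ih =>
    intro s ω ω' h
    rw [dp_succ] at h
    rw [D_succ]
    by_cases hs : s.1.Nonempty
    · rw [dif_pos hs] at h ⊢
      have h1 := ih (full N s (pick s.1 hs)) ω ω'
        fun v hv => h v (mem_insert_of_mem (mem_union_left _ hv))
      have h2 := ih (rem s (pick s.1 hs)) ω ω'
        fun v hv => h v (mem_insert_of_mem (mem_union_right _ hv))
      have h3 := h (pick s.1 hs) (mem_insert_self _ _)
      simp only [Set.mem_union, Set.mem_inter_iff, Set.mem_ofPred_eq]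
      rw [h1, h2, h3]
    · rw [dif_neg hs]
      simp

theorem dj_rem {s : Finset V × Finset V} {x : V} (h : Disjoint s.1 s.2) :
    Disjoint (rem s x).1 (rem s x).2 := by
  rw [Finset.disjoint_left] at h ⊢
  intro v hv hv2
  unfold rem at hv hv2
  rcases mem_insert.mp hv2 with rfl | h2
  · exact (mem_erase.mp hv).1 rfl
  · exact h (mem_of_mem_erase hv) h2

theorem dj_full {s : Finset V × Finset V} {x : V} (h : Disjoint s.1 s.2) :
    Disjoint (full N s x).1 (full N s x).2 := by
  unfold full
  refine dj_rem ?_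
  rw [Finset.disjoint_left] at h ⊢
  intro v hv hv2
  rcases mem_union.mp hv with h1 | h1
  · exact h h1 hv2
  · exact ((mem_Wh N).mp h1).2.2 hv2

theorem dp_disj (n : ℕ) : ∀ (s : Finset V × Finset V), Disjoint s.1 s.2 →
    ∀ v ∈ dp N n s, v ∉ s.2 := by
  induction n with
  | zero => intro s _ v hv; exact absurd hv (notMem_empty _)
  | succ n ih =>
    intro s hd v hv
    rw [dp_succ] at hv
    by_cases hs : s.1.Nonempty
    · rw [dif_pos hs] at hv
      rcases mem_insert.mp hv with rfl | hv
      · exact Finset.disjoint_left.mp hd (pick_mem s.1 hs)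
      rcases mem_union.mp hv with hv | hv
      · have := ih _ (dj_full N hd) v hv
        exact fun h => this (mem_insert_of_mem h)
      · have := ih _ (dj_rem hd) v hv
        exact fun h => this (mem_insert_of_mem h)
    · rw [dif_neg hs] at hv
      exact absurd hv (notMem_empty _)

theorem dp_full (n : ℕ) {s : Finset V × Finset V} {x : V} (hd : Disjoint s.1 s.2) :
    x ∉ dp N n (full N s x) :=
  fun h => dp_disj N n _ (dj_full N hd) x h (mem_insert_self _ _)

theorem dp_rem (n : ℕ) {s : Finset V × Finset V} {x : V} (hd : Disjoint s.1 s.2) :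
    x ∉ dp N n (rem s x) :=
  fun h => dp_disj N n _ (dj_rem hd) x h (mem_insert_self _ _)

/-- on `D` there is a finite set closed under spreading through good vertices -/
theorem D_closed (n : ℕ) : ∀ (s : Finset V × Finset V) (ω : V → Bool), ω ∈ D N n s →
    ∃ T : Finset V, s.1 ⊆ T ∧ s.2 ⊆ T ∧ ∀ u ∈ T, u ∉ s.2 → ω u = false → N u ⊆ T := by
  induction n with
  | zero =>
    intro s ω h
    have h0 : s.1 = ∅ := h
    exact ⟨s.2, by rw [h0]; exact empty_subset _, Subset.refl _, fun u hu hu2 => absurd hu hu2⟩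
  | succ n ih =>
    intro s ω h
    rw [D_succ] at h
    by_cases hs : s.1.Nonempty
    · rw [dif_pos hs] at h
      set x := (pick s.1 hs) with hxd
      have hx : x ∈ s.1 := (pick_mem s.1 hs)
      rcases h with ⟨h1, h2⟩ | ⟨h1, h2⟩
      · obtain ⟨T, hT1, hT2, hT3⟩ := ih _ ω h2
        have hxT : x ∈ T := hT2 (mem_insert_self _ _)
        have hsT : s.1 ⊆ T := by
          intro v hv
          by_cases hvx : v = x
          · rw [hvx]; exact hxT
          · exact hT1 (mem_erase.mpr ⟨hvx, mem_union_left _ hv⟩)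
        have hbT : s.2 ⊆ T := fun v hv => hT2 (mem_insert_of_mem hv)
        refine ⟨T, hsT, hbT, ?_⟩
        intro u hu hu2 hω
        by_cases hux : u = x
        · subst hux
          intro v hv
          by_cases h3 : v ∈ s.1
          · exact hsT h3
          by_cases h4 : v ∈ s.2
          · exact hbT h4
          have h5 : v ∈ Wh N s x := (mem_Wh N).mpr ⟨hv, h3, h4⟩
          exact hT1 (mem_erase.mpr ⟨fun h => h3 (h ▸ hx), mem_union_right _ h5⟩)
        · refine hT3 u hu ?_ hω
          exact fun h => (mem_insert.mp h).elim hux hu2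
      · obtain ⟨T, hT1, hT2, hT3⟩ := ih _ ω h2
        have hxT : x ∈ T := hT2 (mem_insert_self _ _)
        refine ⟨T, ?_, fun v hv => hT2 (mem_insert_of_mem hv), ?_⟩
        · intro v hv
          by_cases hvx : v = x
          · rw [hvx]; exact hxT
          · exact hT1 (mem_erase.mpr ⟨hvx, hv⟩)
        · intro u hu hu2 hω
          by_cases hux : u = x
          · exfalso
            rw [hux] at hω
            have h1' : ω x = true := h1
            rw [h1'] at hω
            exact Bool.noConfusion hω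
          · refine hT3 u hu ?_ hω
            exact fun h => (mem_insert.mp h).elim hux hu2
    · have h0 : s.1 = ∅ := not_nonempty_iff_eq_empty.mp hs
      exact ⟨s.2, by rw [h0]; exact empty_subset _, Subset.refl _, fun u hu hu2 => absurd hu hu2⟩

end General

/-! ### the square lattice -/

/-- nearest neighbours in `ℤ²` -/
def nb (x : ℤ × ℤ) : Finset (ℤ × ℤ) :=
  {(x.1 + 1, x.2), (x.1 - 1, x.2), (x.1, x.2 + 1), (x.1, x.2 - 1)}

theorem nb_card (x : ℤ × ℤ) : (nb x).card ≤ 4 := card_le_four

/-- a bit with a small probability of `true` -/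
def ber : Measure Bool :=
  ENNReal.ofReal (1 / 884101250) • Measure.dirac true
    + ENNReal.ofReal (1 - 1 / 884101250) • Measure.dirac false

theorem ber_true : ber {true} = ENNReal.ofReal (1 / 884101250) := by
  simp [ber]

theorem ber_false : ber {false} = ENNReal.ofReal (1 - 1 / 884101250) := by
  simp [ber]

instance : IsProbabilityMeasure ber := ⟨by
  have : (Set.univ : Set Bool) = {true} ∪ {false} := by
    ext b; cases b <;> simp
  rw [this, measure_union (by simp) (measurableSet_singleton _), ber_true, ber_false,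
    ← ENNReal.ofReal_add (by norm_num) (by norm_num)]
  norm_num⟩

/-- the environment -/
def env : Measure (ℤ × ℤ → Bool) := Measure.infinitePi fun _ => ber

instance : IsProbabilityMeasure env := by unfold env; infer_instance

theorem env_indep : H592F.FinIndep env (fun (x : ℤ × ℤ) ω => ω x) := by
  intro S T hST
  have h1 : iIndepFun (fun (x : ℤ × ℤ) (ω : ℤ × ℤ → Bool) => ω x) env :=
    iIndepFun_infinitePi (P := fun _ : ℤ × ℤ => ber) (X := fun _ b => b) (fun _ => measurable_id)
  exact h1.indepFun_finset S T hST (fun x => measurable_pi_apply x)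

theorem env_eval (x : ℤ × ℤ) (b : Bool) : env {ω | ω x = b} = ber {b} := by
  have h := (measurePreserving_eval_infinitePi (fun _ : ℤ × ℤ => ber) x).measure_preimage
    (s := {b}) (measurableSet_singleton _).nullMeasurableSet
  exact h

theorem env_split {E : Set (ℤ × ℤ → Bool)} {S : Finset (ℤ × ℤ)} {x : ℤ × ℤ} (hx : x ∉ S)
    (hE : ∀ ω ω' : ℤ × ℤ → Bool, (∀ v ∈ S, ω v = ω' v) → (ω ∈ E ↔ ω' ∈ E)) (b : Bool) :
    MeasurableSet E ∧ env ({ω | ω x = b} ∩ E) = ber {b} * env E := by
  set F : (ℤ × ℤ → Bool) → (S → Bool) := fun ω i => ω i with hF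
  have hFm : Measurable F := measurable_pi_lambda _ fun i => measurable_pi_apply _
  set T : Set (S → Bool) := F '' E with hT
  have hpre : E = F ⁻¹' T := by
    ext ω
    constructor
    · intro h; exact ⟨ω, h, rfl⟩
    · rintro ⟨ω', h', he⟩
      refine (hE ω' ω ?_).mp h'
      intro v hv
      exact congrFun he ⟨v, hv⟩
  have hTm : MeasurableSet T := (Set.toFinite _).measurableSet
  refine ⟨hpre ▸ hFm hTm, ?_⟩
  have hi := env_indep {x} S (Finset.disjoint_singleton_left.mpr hx)
  set G : (ℤ × ℤ → Bool) → (({x} : Finset (ℤ × ℤ)) → Bool) := fun ω i => ω i with hG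
  have h2 : {ω : ℤ × ℤ → Bool | ω x = b} = G ⁻¹' {f | f ⟨x, mem_singleton_self x⟩ = b} := rfl
  have h3 := hi.measure_inter_preimage_eq_mul
    {f : (({x} : Finset (ℤ × ℤ)) → Bool) | f ⟨x, mem_singleton_self x⟩ = b} T
    (Set.toFinite _).measurableSet hTm
  rw [hpre, h2]
  rw [← env_eval x b, h2]
  exact h3

theorem D_prob (n : ℕ) {s : Finset (ℤ × ℤ) × Finset (ℤ × ℤ)} (hd : Disjoint s.1 s.2)
    (hs : s.1.Nonempty) :
    env.real (D nb (n + 1) s) = (1 - 1 / 884101250) * env.real (D nb n (full nb s (pick s.1 hs)))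
      + 1 / 884101250 * env.real (D nb n (rem s (pick s.1 hs))) := by
  have e : D nb (n + 1) s = ({ω | ω (pick s.1 hs) = false} ∩ D nb n (full nb s (pick s.1 hs))) ∪
        ({ω | ω (pick s.1 hs) = true} ∩ D nb n (rem s (pick s.1 hs))) := by
    rw [D_succ, dif_pos hs]
  obtain ⟨m1, p1⟩ := env_split (dp_full nb n (x := (pick s.1 hs)) hd)
    (D_dep nb n (full nb s (pick s.1 hs))) false
  obtain ⟨m2, p2⟩ := env_split (dp_rem nb n (x := (pick s.1 hs)) hd)
    (D_dep nb n (rem s (pick s.1 hs))) true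
  have hm : MeasurableSet ({ω : ℤ × ℤ → Bool | ω (pick s.1 hs) = true} ∩
      D nb n (rem s (pick s.1 hs))) := by
    refine MeasurableSet.inter ?_ m2
    have h0 : MeasurableSet ((fun ω : ℤ × ℤ → Bool => ω (pick s.1 hs)) ⁻¹' {true}) :=
      measurable_pi_apply _ (measurableSet_singleton true)
    exact h0
  rw [e, measureReal_union ?_ hm]
  · unfold Measure.real
    rw [p1, p2, ENNReal.toReal_mul, ENNReal.toReal_mul, ber_true, ber_false,
      ENNReal.toReal_ofReal (by norm_num), ENNReal.toReal_ofReal (by norm_num)]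
  · rw [Set.disjoint_left]
    rintro ω ⟨h1, _⟩ ⟨h2, _⟩
    have h1' : ω (pick s.1 hs) = false := h1
    have h2' : ω (pick s.1 hs) = true := h2
    rw [h1'] at h2'
    exact Bool.noConfusion h2'

/-- the fast epidemic is dominated -/
theorem dom (n : ℕ) : ∀ (s : Finset (ℤ × ℤ) × Finset (ℤ × ℤ)) (k : ℤ), k ≤ n →
    Disjoint s.1 s.2 → gz nb (4 * 884101250) k s ≤ env.real (D nb n s) := by
  have hθ : (0 : ℝ) < 4 * 884101250 := by norm_num
  induction n with
  | zero =>
    intro s k hk _
    by_cases hs : s.1 = ∅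
    · have : D nb 0 s = Set.univ := by
        unfold D; ext; simp [hs]
      rw [this, probReal_univ]
      exact gz_le_one nb hθ.le _ _
    · rcases lt_or_ge k 0 with h | h
      · rw [gz_neg nb h]; exact measureReal_nonneg
      · have : k = ((0 : ℕ) : ℤ) := by push_cast at hk ⊢; omega
        rw [this, gz_coe, g_zero, if_neg hs]
        exact measureReal_nonneg
  | succ n ih =>
    intro s k hk hd
    by_cases hs : s.1.Nonempty
    · obtain ⟨j, hj, hb⟩ := full_bound4 nb hθ nb_card s (pick s.1 hs) (k - 1) (pick_mem s.1 hs)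
      rw [sub_add_cancel] at hb
      rw [D_prob n hd hs]
      have hk1 : k - 1 ≤ n := by push_cast at hk; omega
      have i1 := ih (full nb s (pick s.1 hs)) j (hj.trans hk1) (dj_full nb hd)
      have i2 := ih (rem s (pick s.1 hs)) (k - 1) hk1 (dj_rem hd)
      have e : (4 : ℝ) / (4 * 884101250) = 1 / 884101250 := by norm_num
      rw [e] at hb
      have j1 := mul_le_mul_of_nonneg_left i1 (by norm_num : (0 : ℝ) ≤ 1 - 1 / 884101250)
      have j2 := mul_le_mul_of_nonneg_left i2 (by norm_num : (0 : ℝ) ≤ 1 / 884101250)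
      linarith
    · have : D nb (n + 1) s = Set.univ := by
        rw [D_succ, dif_neg hs]
      rw [this, probReal_univ]
      exact gz_le_one nb hθ.le _ _

theorem big (n : ℕ) : g nb (4 * 884101250) n ({(0, 0)}, ∅) ≤ 1 / 4 := by
  have h1 := dom n ({(0, 0)}, ∅) n le_rfl (Finset.disjoint_empty_right _)
  rw [gz_coe] at h1
  refine h1.trans ?_
  have h2 : D nb n ({(0, 0)}, ∅) ⊆
      {ω | ∃ k, ¬ H592F.safe (H592F.bad (H592F.Bof (fun (x : ℤ × ℤ) ω => ω x) ω) k) (0, 0)} := by
    intro ω hω
    by_contra hcon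
    have hsafe : ∀ k, H592F.safe (H592F.bad (H592F.Bof (fun (x : ℤ × ℤ) ω => ω x) ω) k) (0, 0) := by
      intro k
      by_contra h
      exact hcon ⟨k, h⟩
    obtain ⟨T, hT1, _, hT3⟩ := D_closed nb n _ ω hω
    have hW : ∀ v, H592F.Wet (H592F.Bof (fun (x : ℤ × ℤ) ω => ω x) ω) v → v ∈ T := by
      intro v hv
      induction hv with
      | zero => exact hT1 (mem_singleton_self _)
      | @right v _ hb ih =>
        have hf : ω v = false := by
          have : ¬ ω v = true := hb
          simpa using this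
        refine hT3 v ih (notMem_empty _) hf ?_
        unfold nb
        simp
      | @up v _ hb ih =>
        have hf : ω v = false := by
          have : ¬ ω v = true := hb
          simpa using this
        refine hT3 v ih (notMem_empty _) hf ?_
        unfold nb
        simp
    obtain ⟨M, hM⟩ : ∃ M : ℕ, ∀ v ∈ T, v.1 + v.2 < M := by
      refine ⟨(∑ v ∈ T, (v.1 + v.2).natAbs) + 1, fun v hv => ?_⟩
      have h3 : (v.1 + v.2).natAbs ≤ ∑ v ∈ T, (v.1 + v.2).natAbs :=
        single_le_sum (f := fun v : ℤ × ℤ => (v.1 + v.2).natAbs) (fun _ _ => Nat.zero_le _) hv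
      omega
    obtain ⟨x, hx, hxN⟩ := H592F.perc_det _ hsafe M
    have := hM x (hW x hx)
    omega
  have h3 := H592F.fail_prob env (fun (x : ℤ × ℤ) ω => ω x) env_indep (fun v => by
    rw [env_eval, ber_true])
  have h4 : env.real (D nb n ({(0, 0)}, ∅)) ≤ (ENNReal.ofReal (1 / 4)).toReal :=
    ENNReal.toReal_mono ENNReal.ofReal_ne_top ((measure_mono h2).trans h3)
  rwa [ENNReal.toReal_ofReal (by norm_num)] at h4

end

end Pool.Agent.R113.CE
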