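import Mathlib
import Pool.Agent.R113.CE.Perc

/-!
# The critical rates: comparison and limit
-/

set_option autoImplicit false

open Finset MeasureTheory ProbabilityTheory Filter Topology

namespace Pool.Agent.R113.CE

noncomputable section

/-- one red vertex -/
def ini : Finset (ℤ × ℤ) × Finset (ℤ × ℤ) := ({(0, 0)}, ∅)

/-- removal rates: conversion and predation -/
def cr (α : ℝ) (s : Finset (ℤ × ℤ) × Finset (ℤ × ℤ)) (x : ℤ × ℤ) : ℝ :=
  if 0 < α then α + ((nb x ∩ s.2).card : ℝ) else 1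

/-- the epidemic dies out almost surely -/
def T : Set ℝ := {θ | 0 < θ ∧ (⨆ n, ENNReal.ofReal (g nb θ n ini)) = 1}

/-- chase-escape with conversion dies out almost surely -/
def S (α : ℝ) : Set ℝ := {l | 0 < l ∧ (⨆ n, ENNReal.ofReal (A nb (cr α) l n ini)) = 1}

theorem cr_pos (α : ℝ) (s : Finset (ℤ × ℤ) × Finset (ℤ × ℤ)) (x : ℤ × ℤ) : 0 < cr α s x := by
  unfold cr
  split_ifs with h
  · positivity
  · exact one_pos

theorem cr_ge {α : ℝ} (h : 0 < α) (s : Finset (ℤ × ℤ) × Finset (ℤ × ℤ)) (x : ℤ × ℤ) :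
    α ≤ cr α s x := by
  unfold cr
  rw [if_pos h]
  have : (0 : ℝ) ≤ ((nb x ∩ s.2).card : ℝ) := Nat.cast_nonneg _
  linarith

theorem cr_le {α : ℝ} (h : 0 < α) (s : Finset (ℤ × ℤ) × Finset (ℤ × ℤ)) (x : ℤ × ℤ) :
    cr α s x ≤ α + 4 := by
  unfold cr
  rw [if_pos h]
  have : (nb x ∩ s.2).card ≤ 4 := (card_le_card inter_subset_left).trans (nb_card x)
  have : ((nb x ∩ s.2).card : ℝ) ≤ 4 := by exact_mod_cast this
  linarith

theorem sup_eq_one {f h : ℕ → ℝ} (hfh : ∀ n, f n ≤ h n) (h1 : ∀ n, h n ≤ 1)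
    (hf : (⨆ n, ENNReal.ofReal (f n)) = 1) : (⨆ n, ENNReal.ofReal (h n)) = 1 := by
  refine le_antisymm (iSup_le fun n => ?_) ?_
  · rw [← ENNReal.ofReal_one]; exact ENNReal.ofReal_le_ofReal (h1 n)
  · rw [← hf]
    exact iSup_mono fun n => ENNReal.ofReal_le_ofReal (hfh n)

theorem T_small : (1 / 16 : ℝ) ∈ T := by
  refine ⟨by norm_num, le_antisymm (iSup_le fun n => ?_) ?_⟩
  · rw [← ENNReal.ofReal_one]
    exact ENNReal.ofReal_le_ofReal (g_le_one nb (by norm_num) n ini)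
  · have h1 : Tendsto (fun n : ℕ => ENNReal.ofReal (1 - (4 / 5 : ℝ) ^ n * 2)) atTop
        (𝓝 (ENNReal.ofReal 1)) := by
      refine ENNReal.tendsto_ofReal ?_
      have h2 := tendsto_pow_atTop_nhds_zero_of_lt_one (r := (4 / 5 : ℝ)) (by norm_num)
        (by norm_num)
      have h3 := (h2.mul_const 2).const_sub 1
      simpa using h3
    rw [ENNReal.ofReal_one] at h1
    refine le_of_tendsto' h1 fun n => ?_
    refine le_trans (ENNReal.ofReal_le_ofReal ?_)
      (le_iSup (fun n => ENNReal.ofReal (g nb (1 / 16) n ini)) n)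
    have h2 := small nb nb_card n ini
    have h3 : ini.1.card = 1 := card_singleton _
    rw [h3, pow_one] at h2
    linarith

theorem T_le {θ : ℝ} (h : θ ∈ T) : θ ≤ 4 * 884101250 := by
  by_contra hcon
  have hlt : (4 * 884101250 : ℝ) ≤ θ := (not_le.mp hcon).le
  have h1 : (⨆ n, ENNReal.ofReal (g nb θ n ini)) ≤ ENNReal.ofReal (1 / 4) :=
    iSup_le fun n => ENNReal.ofReal_le_ofReal
      ((g_anti nb (by norm_num) hlt n ini).trans (big n))
  rw [h.2, ENNReal.one_le_ofReal] at h1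
  norm_num at h1

theorem T_bdd : BddAbove T := ⟨4 * 884101250, fun _ h => T_le h⟩

/-- the critical spreading rate of the epidemic -/
def tc : ℝ := sSup T

theorem tc_pos : 0 < tc := lt_of_lt_of_le (by norm_num) (le_csSup T_bdd T_small)

theorem T_to_S {α θ : ℝ} (hα : 0 < α) (h : θ ∈ T) : θ * α ∈ S α := by
  have hl : 0 < θ * α := mul_pos h.1 hα
  refine ⟨hl, ?_⟩
  refine sup_eq_one (f := fun n => g nb θ n ini) (fun n => ?_) (fun n => ?_) h.2
  · exact cmp_ge nb (cr_pos α) hl.le h.1.le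
      (fun s x => mul_le_mul_of_nonneg_left (cr_ge hα s x) h.1.le) n ini
  · exact A_le_one nb (cr_pos α) hl.le n ini

theorem S_to_T {α l : ℝ} (hα : 0 < α) (h : l ∈ S α) : l / (α + 4) ∈ T := by
  have h4 : 0 < α + 4 := by linarith
  have hθ : 0 < l / (α + 4) := div_pos h.1 h4
  refine ⟨hθ, ?_⟩
  refine sup_eq_one (f := fun n => A nb (cr α) l n ini) (fun n => ?_) (fun n => ?_) h.2
  · refine cmp_le nb (cr_pos α) h.1.le hθ.le n ini fun s x => ?_
    calc l / (α + 4) * cr α s x ≤ l / (α + 4) * (α + 4) :=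
          mul_le_mul_of_nonneg_left (cr_le hα s x) hθ.le
      _ = l := div_mul_cancel₀ l h4.ne'
  · exact g_le_one nb hθ.le n ini

theorem S_le {α l : ℝ} (hα : 0 < α) (h : l ∈ S α) : l ≤ tc * (α + 4) := by
  have h1 := le_csSup T_bdd (S_to_T hα h)
  have h4 : 0 < α + 4 := by linarith
  rwa [div_le_iff₀ h4] at h1

theorem S_bdd {α : ℝ} (hα : 0 < α) : BddAbove (S α) := ⟨tc * (α + 4), fun _ h => S_le hα h⟩

theorem S_ne {α : ℝ} (hα : 0 < α) : (S α).Nonempty := ⟨_, T_to_S hα T_small⟩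

theorem lc_le {α : ℝ} (hα : 0 < α) : sSup (S α) ≤ tc * (α + 4) :=
  csSup_le (S_ne hα) fun _ h => S_le hα h

theorem le_lc {α : ℝ} (hα : 0 < α) : tc * α ≤ sSup (S α) := by
  rw [← le_div_iff₀ hα]
  refine csSup_le ⟨_, T_small⟩ fun θ h => ?_
  rw [le_div_iff₀ hα]
  exact le_csSup (S_bdd hα) (T_to_S hα h)

theorem main_lim : Tendsto (fun α : ℝ => sSup (S α) / α) atTop (𝓝 tc) := by
  have h1 : Tendsto (fun α : ℝ => tc * (1 + 4 / α)) atTop (𝓝 tc) := by
    have h2 : Tendsto (fun α : ℝ => 4 / α) atTop (𝓝 0) := tendsto_const_nhds.div_atTop tendsto_id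
    have h3 := (h2.const_add 1).const_mul tc
    simpa using h3
  refine tendsto_of_tendsto_of_tendsto_of_le_of_le' tendsto_const_nhds h1 ?_ ?_
  · filter_upwards [eventually_gt_atTop 0] with α hα
    rw [le_div_iff₀ hα]
    exact le_lc hα
  · filter_upwards [eventually_gt_atTop 0] with α hα
    rw [div_le_iff₀ hα]
    have : tc * (1 + 4 / α) * α = tc * (α + 4) := by
      field_simp
    rw [this]
    exact lc_le hα

end

end Pool.Agent.R113.CE
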